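import Pool.Agent.H93.SC.Targets
import Pool.Agent.H64.SC.Api
import Pool.Agent.H76.KN.V4
import Pool.Agent.H12.UF.Extra

/-!
The affine charts of a smooth projective variety: fractions, homogenisation, centres of discrete
valuations, prime divisors and primes of height one (MP_f2954d_ag, birational part of block B5).
-/

namespace Pool.Agent.H12.BX

open SC

variable {K : Type} [Field K] [Algebra ℂ K] {N : ℕ} {w : Fin (N + 1) → K} {n : ℕ}

lemma div_mem_chart (i j : Fin (N + 1)) : w j / w i ∈ chart w i := Algebra.subset_adjoin ⟨j, rfl⟩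

/-- induction on elements of a chart -/
theorem chart_induction {i : Fin (N + 1)} {p : K → Prop} (h1 : ∀ j, p (w j / w i))
    (h2 : ∀ c : ℂ, p (algebraMap ℂ K c)) (h3 : ∀ x y, p x → p y → p (x + y))
    (h4 : ∀ x y, p x → p y → p (x * y)) {a : K} (ha : a ∈ chart w i) : p a := by
  refine Algebra.adjoin_induction (p := fun x _ => p x) ?_ ?_ ?_ ?_ ha
  · rintro _ ⟨j, rfl⟩
    exact h1 j
  · exact fun c => h2 c
  · exact fun x y _ _ hx hy => h3 x y hx hy
  · exact fun x y _ _ hx hy => h4 x y hx hy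

theorem exists_div (hX : IsSmoothProj w n) {i : Fin (N + 1)} (hi : w i ≠ 0) (x : K) :
    ∃ a ∈ chart w i, ∃ b ∈ chart w i, b ≠ 0 ∧ x = a / b := by
  have hx : x ∈ IntermediateField.adjoin ℂ (chart w i : Set K) := by
    rw [hX.functionField i hi]; trivial
  rw [IntermediateField.mem_adjoin_iff_div] at hx
  obtain ⟨a, ha, b, hb, rfl⟩ := hx
  rw [Algebra.adjoin_eq] at ha hb
  by_cases h : b = 0
  · exact ⟨0, (chart w i).zero_mem, 1, (chart w i).one_mem, one_ne_zero, by rw [h]; simp⟩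
  · exact ⟨a, ha, b, hb, h, rfl⟩

theorem isFractionRing_chart (hX : IsSmoothProj w n) {i : Fin (N + 1)} (hi : w i ≠ 0) :
    IsFractionRing (chart w i) K := by
  apply IsFractionRing.of_field
  intro z
  obtain ⟨a, ha, b, hb, -, h⟩ := exists_div hX hi z
  exact ⟨⟨a, ha⟩, ⟨b, hb⟩, h⟩

/-- homogenisation -/
theorem homog {i j : Fin (N + 1)} (hi : w i ≠ 0) {a : K} (ha : a ∈ chart w i) :
    ∃ e₀ : ℕ, ∀ e, e₀ ≤ e → a * (w i / w j) ^ e ∈ chart w j := by
  refine chart_induction (p := fun a => ∃ e₀ : ℕ, ∀ e, e₀ ≤ e → a * (w i / w j) ^ e ∈ chart w j)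
    ?_ ?_ ?_ ?_ ha
  · intro l
    refine ⟨1, fun e he => ?_⟩
    obtain ⟨e, rfl⟩ : ∃ e', e = e' + 1 := ⟨e - 1, by omega⟩
    have : w l / w i * (w i / w j) ^ (e + 1) = (w l / w j) * (w i / w j) ^ e := by
      have h0 : w l / w i * (w i / w j) = w l / w j := div_mul_div_cancel₀ hi
      rw [pow_succ, ← h0]
      ring
    rw [this]
    exact (chart w j).mul_mem (div_mem_chart j l) ((chart w j).pow_mem (div_mem_chart j i) e)
  · intro c
    exact ⟨0, fun e _ => (chart w j).mul_mem ((chart w j).algebraMap_mem c)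
      ((chart w j).pow_mem (div_mem_chart j i) e)⟩
  · rintro x y ⟨e1, h1⟩ ⟨e2, h2⟩
    refine ⟨max e1 e2, fun e he => ?_⟩
    rw [add_mul]
    exact (chart w j).add_mem (h1 e (le_trans (le_max_left _ _) he))
      (h2 e (le_trans (le_max_right _ _) he))
  · rintro x y ⟨e1, h1⟩ ⟨e2, h2⟩
    refine ⟨e1 + e2, fun e he => ?_⟩
    have : x * y * (w i / w j) ^ e = (x * (w i / w j) ^ e1) * (y * (w i / w j) ^ (e - e1)) := by
      have h : e = e1 + (e - e1) := by omega
      conv_lhs => rw [h, pow_add]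
      ring
    rw [this]
    exact (chart w j).mul_mem (h1 e1 le_rfl) (h2 _ (by omega))

section DVsec

variable (v : DV ℂ K)

/-- `v` is nonnegative on the chart -/
def NN (v : DV ℂ K) (w : Fin (N + 1) → K) (i : Fin (N + 1)) : Prop := ∀ a ∈ chart w i, 0 ≤ v.ord a

theorem nn_of_gen {i : Fin (N + 1)} (h : ∀ j, 0 ≤ v.ord (w j / w i)) : NN v w i := by
  intro a ha
  refine chart_induction (p := fun a => 0 ≤ v.ord a) h (fun c => (v.ord_base c).ge)
    (fun x y hx hy => v.ord_add_nonneg hx hy) (fun x y hx hy => v.ord_mul_nonneg hx hy) ha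

theorem nn_iff {i : Fin (N + 1)} : NN v w i ↔ ∀ j, 0 ≤ v.ord (w j / w i) :=
  ⟨fun h j => h _ (div_mem_chart i j), nn_of_gen v⟩

/-- every discrete valuation has a centre on some chart -/
theorem exists_nn (h : ∃ i, w i ≠ 0) : ∃ i, w i ≠ 0 ∧ NN v w i := by
  classical
  obtain ⟨i0, hi0⟩ := h
  obtain ⟨i, hi, hmin⟩ := Finset.exists_min_image (Finset.univ.filter fun i => w i ≠ 0)
    (fun i => v.ord (w i)) ⟨i0, by simpa using hi0⟩
  have hi' : w i ≠ 0 := by simpa using hi
  refine ⟨i, hi', nn_of_gen v fun j => ?_⟩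
  by_cases hj : w j = 0
  · rw [hj, zero_div, v.ord_zero]
  · rw [v.ord_div hj hi']
    have := hmin j (by simpa using hj)
    omega

variable {v}

/-- if two charts contain the centre then the quotient of the coordinates is a unit -/
theorem ord_ratio {i j : Fin (N + 1)} (hi : w i ≠ 0) (hj : w j ≠ 0) (h1 : NN v w i)
    (h2 : NN v w j) : v.ord (w i / w j) = 0 := by
  have h3 := h1 _ (div_mem_chart i j)
  have h4 := h2 _ (div_mem_chart j i)
  rw [v.ord_div hj hi] at h3
  rw [v.ord_div hi hj] at h4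
  rw [v.ord_div hi hj]
  omega

/-- the inclusion of the chart in the valuation ring -/
noncomputable def incl {i : Fin (N + 1)} (h : NN v w i) : chart w i →+* v.vs where
  toFun a := ⟨a.1, h a.1 a.2⟩
  map_one' := rfl
  map_mul' _ _ := rfl
  map_zero' := rfl
  map_add' _ _ := rfl

/-- the centre of the valuation on the chart -/
noncomputable def centre {i : Fin (N + 1)} (h : NN v w i) : Ideal (chart w i) :=
  (IsLocalRing.maximalIdeal v.vs).comap (incl h)

instance centre_isPrime {i : Fin (N + 1)} (h : NN v w i) : (centre h).IsPrime := by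
  unfold centre
  infer_instance

theorem mem_centre {i : Fin (N + 1)} (h : NN v w i) (a : chart w i) :
    a ∈ centre h ↔ (a : K) = 0 ∨ 0 < v.ord (a : K) := by
  have h1 := v.red_eq_zero_iff (h a.1 a.2)
  rw [v.red_of_nonneg (h a.1 a.2), IsLocalRing.residue_eq_zero_iff] at h1
  rw [← h1]
  rfl

theorem notMem_centre {i : Fin (N + 1)} (h : NN v w i) (a : chart w i) :
    a ∉ centre h ↔ (a : K) ≠ 0 ∧ v.ord (a : K) = 0 := by
  rw [mem_centre]
  have := h a.1 a.2
  constructor
  · intro h1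
    push Not at h1
    exact ⟨h1.1, by omega⟩
  · rintro ⟨h1, h2⟩ (h3 | h3)
    · exact h1 h3
    · omega

theorem centre_ne_bot (hX : IsSmoothProj w n) {i : Fin (N + 1)} (hi : w i ≠ 0) (h : NN v w i) :
    centre h ≠ ⊥ := by
  intro hb
  obtain ⟨x, hx, hx1⟩ := v.ord_surj
  obtain ⟨a, ha, b, hb', hb0, rfl⟩ := exists_div hX hi x
  have ha0 : a ≠ 0 := by
    rintro rfl
    exact hx (by simp)
  have h1 : ∀ c ∈ chart w i, c ≠ 0 → v.ord c = 0 := by
    intro c hc hc0
    have : (⟨c, hc⟩ : chart w i) ∉ centre h := by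
      rw [hb, Ideal.mem_bot]
      intro h2
      exact hc0 (congrArg Subtype.val h2)
    exact ((notMem_centre h _).1 this).2
  rw [v.ord_div ha0 hb0, h1 a ha ha0, h1 b hb' hb0] at hx1
  omega

end DVsec

end Pool.Agent.H12.BX
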