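import Pool.Agent.H15.SC.Ms

/-!
Block B5 (MP_f2954d_ag), part 2, module MDD: two different prime divisors have nonnegative
intersection with very ample divisors (helper12).
-/

namespace Pool.Agent.H12.BX

open SC SCB

lemma toR_single {K : Type} [Field K] [Algebra ℂ K] {N : ℕ} {w : Fin (N + 1) → K} (v : PDiv w) :
    toR (Finsupp.single v (1 : ℤ)) = Finsupp.single v (1 : ℝ) := by
  unfold toR
  rw [Finsupp.mapRange_single]
  simp

lemma toR_add {K : Type} [Field K] [Algebra ℂ K] {N : ℕ} {w : Fin (N + 1) → K} (A B : DivZ w) :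
    toR (A + B) = toR A + toR B := by
  unfold toR
  rw [Finsupp.mapRange_add]
  intro x y
  push_cast
  rfl

theorem mdd (hMD : T_MD) (hXL3 : T_XL3) (hXH2 : T_XH2) (hSPN : T_SPN) (hXQ : T_XQ)
    (hMON : T_MON) (hGL : SCB.T_GL) : T_MDD := by
  intro K _ _ N n w i₀ H₀ μ hX hH hμ J _ D hJ hD v v' hvv
  obtain ⟨q1, q2, q3, q4, q5, q6⟩ := hXQ K N n w hX i₀ H₀ hH
  obtain ⟨A, B, hA, hB, hAB⟩ := (hSPN K N n w i₀ H₀ hX hH).1 (Finsupp.single v' 1)
  obtain ⟨TA, hTA⟩ := (q4 A).1 hA
  obtain ⟨TB, hTB⟩ := (q4 B).1 hB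
  have hD' : ∀ j, ∃ T, Nice i₀ H₀ (D j) T := fun j => (q4 (D j)).1 (hD j)
  choose T hT using hD'
  obtain ⟨-, hadd, -⟩ := hGL (DivR w) n μ hμ.1
  have hn : 1 ≤ n := by omega
  set m : Multiset (DivR w) := ms fun j => toR (D j) with hm
  have hmc : m.card = Fintype.card J := by
    simp [hm, ms]
  -- the value for a very ample divisor
  have hval : ∀ (E : DivZ w) (S : Sys K), Nice i₀ H₀ E S →
      ofMulti μ (Finsupp.single v 1 ::ₘ toR E ::ₘ m) =
        (Idx (Sum.elim (fun _ : Unit => v.1.res S) fun j => v.1.res (T j)) ℂ : ℝ) := by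
    intro E S hS
    have h := hMD K N n w i₀ H₀ μ hX hn hH hμ (Unit ⊕ J) (Sum.elim (fun _ => E) D)
      (Sum.elim (fun _ => S) T) (by simp; omega) (by
        rintro (j | j)
        · exact hS
        · exact hT j) v
    have e1 : ms (fun j : Unit ⊕ J => toR (Sum.elim (fun _ => E) D j)) = toR E ::ₘ m :=
      ms_elim1 (fun j => toR (D j)) (toR E) _ (fun i => rfl) rfl
    rw [e1] at h
    rw [h]
    congr 2
    funext j
    rcases j with j | j <;> rfl
  have hsum : ofMulti μ (Finsupp.single v 1 ::ₘ Finsupp.single v' 1 ::ₘ m) =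
      ofMulti μ (Finsupp.single v 1 ::ₘ toR A ::ₘ m) -
        ofMulti μ (Finsupp.single v 1 ::ₘ toR B ::ₘ m) := by
    have hAe : toR A = Finsupp.single v' 1 + toR B := by
      rw [← toR_single v', ← toR_add, hAB, sub_add_cancel]
    have h := hadd (Finsupp.single v' 1) (toR B) (Finsupp.single v 1 ::ₘ m) (by simp [hmc]; omega)
    rw [← hAe] at h
    rw [Multiset.cons_swap (Finsupp.single v 1) (toR A), h, Multiset.cons_swap (Finsupp.single v 1)
      (Finsupp.single v' 1), Multiset.cons_swap (Finsupp.single v 1) (toR B)]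
    ring
  rw [hsum, hval A TA hTA, hval B TB hTB, sub_nonneg]
  obtain ⟨hGA, hnA⟩ := q6 A TA hTA
  obtain ⟨hGB, hnB⟩ := q6 B TB hTB
  have hle : ∀ u : DV ℂ v.1.Res, u.mo (v.1.res TA) ≤ u.mo (v.1.res TB) := by
    refine hXL3 K N n w hX A B TA TB hGA hGB ?_ v ?_
    · intro z
      have : A = (Finsupp.single v' 1 + B : DivZ w) := by rw [hAB, sub_add_cancel]
      rw [this]
      have h0 : (0 : ℤ) ≤ (Finsupp.single v' (1 : ℤ) : DivZ w) z := by
        by_cases hz : v' = z
        · rw [hz, Finsupp.single_eq_same]; norm_num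
        · rw [Finsupp.single_eq_of_ne' hz]
      have : (Finsupp.single v' 1 + B : DivZ w) z = (Finsupp.single v' (1 : ℤ) : DivZ w) z + B z := rfl
      rw [this]
      omega
    · have : A = (Finsupp.single v' 1 + B : DivZ w) := by rw [hAB, sub_add_cancel]
      rw [this]
      have h0 : (Finsupp.single v' (1 : ℤ) : DivZ w) v = 0 := by
        rw [Finsupp.single_eq_of_ne' (Ne.symm hvv)]
      have : (Finsupp.single v' 1 + B : DivZ w) v = (Finsupp.single v' (1 : ℤ) : DivZ w) v + B v := rfl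
      rw [this, h0, zero_add]
  have hX' : IsSmoothProj w ((Fintype.card J + 1) + 1) := by
    have : (Fintype.card J + 1) + 1 = n := by omega
    rw [this]; exact hX
  obtain ⟨hE, htr⟩ := hXH2 K N (Fintype.card J + 1) w hX' v
  have := hMON ℂ v.1.Res J (fun j => v.1.res (T j)) (v.1.res TB) (v.1.res TA)
    (fun j => v.1.res_nz (q6 _ _ (hT j)).2) (v.1.res_nz hnB) (v.1.res_nz hnA) htr hle
  exact_mod_cast this

end Pool.Agent.H12.BX
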