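import Pool.Agent.H15.SC.Ms

/-!
Block B5 (MP_f2954d_ag), part 2, module MX0: the self-intersection number of a very ample divisor
is an index (helper12).
-/

namespace Pool.Agent.H12.BX

open SC Filter Topology

theorem mx0 (hXQ : T_XQ) (hXK : T_XK) (hXI : T_XI) (hXR1 : T_XR1) (hD1 : T_D1) (hD2 : T_D2) :
    T_MX0 := by
  intro K _ _ N n w i₀ H₀ μ hX hn hH hμ D T hT
  obtain ⟨q1, q2, q3, q4, q5, q6⟩ := hXQ K N n w hX i₀ H₀ hH
  have hV : VAmp H₀ D := (q4 D).2 ⟨T, hT⟩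
  have hA : Ample D := q2 D hV
  obtain ⟨hG, hnz⟩ := q6 D T hT
  have := hXI K N n w hX
  have hgen := hXR1 K N n w hX i₀ H₀ D T hH hT
  obtain ⟨C1, h1⟩ := hD1 ℂ K n T hX.dim hnz hgen
  obtain ⟨C2, h2⟩ := hD2 ℂ K n T hX.dim hnz hgen
  have hlim := hμ.2 D hA
  refine tendsto_nhds_unique hlim ?_
  set I : ℝ := (Idx (fun _ : Fin n => T) ℂ : ℝ) with hI
  have hone : Tendsto (fun m : ℕ => (1 : ℝ) / (m : ℝ)) atTop (𝓝 0) :=
    tendsto_one_div_atTop_nhds_zero_nat
  have hup : Tendsto (fun m : ℕ => I + (n.factorial : ℝ) * C1 * ((1 : ℝ) / (m : ℝ))) atTop (𝓝 I) := by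
    simpa using (tendsto_const_nhds (x := I)).add (hone.const_mul ((n.factorial : ℝ) * C1))
  have hlo : Tendsto (fun m : ℕ => I - (n.factorial : ℝ) * C2 * ((1 : ℝ) / (m : ℝ))) atTop (𝓝 I) := by
    simpa using (tendsto_const_nhds (x := I)).sub (hone.const_mul ((n.factorial : ℝ) * C2))
  have hf : (0 : ℝ) < n.factorial := by exact_mod_cast n.factorial_pos
  have key : ∀ m : ℕ, 1 ≤ m → (m : ℝ) ^ n = (m : ℝ) ^ (n - 1) * m := by
    intro m _
    rw [← pow_succ, Nat.sub_add_cancel hn]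
  refine tendsto_of_tendsto_of_tendsto_of_le_of_le' hlo hup ?_ ?_
  · filter_upwards [eventually_ge_atTop 1] with m hm
    have h := h2 m hm
    rw [hXK K N n w hX D T hG m]
    have hm0 : (0 : ℝ) < m := by exact_mod_cast hm
    have hmn : (0 : ℝ) < (m : ℝ) ^ n := pow_pos hm0 n
    rw [le_div_iff₀ hmn]
    have e : (I - (n.factorial : ℝ) * C2 * (1 / (m : ℝ))) * (m : ℝ) ^ n =
        (n.factorial : ℝ) * (I * (m : ℝ) ^ n / n.factorial - C2 * (m : ℝ) ^ (n - 1)) := by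
      rw [key m hm]
      field_simp
    rw [e]
    exact mul_le_mul_of_nonneg_left h hf.le
  · filter_upwards [eventually_ge_atTop 1] with m hm
    have h := h1 m hm
    rw [hXK K N n w hX D T hG m]
    have hm0 : (0 : ℝ) < m := by exact_mod_cast hm
    have hmn : (0 : ℝ) < (m : ℝ) ^ n := pow_pos hm0 n
    rw [div_le_iff₀ hmn]
    have e : (I + (n.factorial : ℝ) * C1 * (1 / (m : ℝ))) * (m : ℝ) ^ n =
        (n.factorial : ℝ) * (I * (m : ℝ) ^ n / n.factorial + C1 * (m : ℝ) ^ (n - 1)) := by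
      rw [key m hm]
      field_simp
    rw [e]
    exact mul_le_mul_of_nonneg_left h hf.le

end Pool.Agent.H12.BX
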