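import Pool.Agent.H12.BX.Chart

/-!
Prime divisors and primes of height one (MP_f2954d_ag, birational part of block B5).
-/

namespace Pool.Agent.H12.BX

open SC

variable {K : Type} [Field K] [Algebra ℂ K] {N : ℕ} {w : Fin (N + 1) → K} {n : ℕ}

theorem chart_finiteType (hX : IsSmoothProj w n) {i : Fin (N + 1)} (hi : w i ≠ 0) :
    Algebra.FiniteType ℂ (chart w i) := by
  have := hX.smooth i hi
  infer_instance

theorem chart_formallySmooth (hX : IsSmoothProj w n) {i : Fin (N + 1)} (hi : w i ≠ 0) :
    Algebra.FormallySmooth ℂ (chart w i) := by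
  have := hX.smooth i hi
  infer_instance

theorem chart_noetherian (hX : IsSmoothProj w n) {i : Fin (N + 1)} (hi : w i ≠ 0) :
    IsNoetherianRing (chart w i) := by
  have := chart_finiteType hX hi
  exact Algebra.FiniteType.isNoetherianRing ℂ (chart w i)

/-- the valuation of a prime of height one -/
theorem exists_dv (hX : IsSmoothProj w n) {i : Fin (N + 1)} (hi : w i ≠ 0)
    (P : Ideal (chart w i)) [P.IsPrime] (hP : P.height = 1) :
    ∃ v : DV ℂ K, ∃ h : NN v w i, centre h = P ∧
      ∀ x : K, 0 ≤ v.ord x → ∃ a b : chart w i, b ∉ P ∧ x = (a : K) / (b : K) := by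
  have h1 := chart_finiteType hX hi
  have h2 := chart_formallySmooth hX hi
  have h3 := isFractionRing_chart hX hi
  set B := Localization.AtPrime P with hB
  have hdom : IsDomain B := IsLocalization.isDomain_localization P.primeCompl_le_nonZeroDivisors
  have hdvr : IsDiscreteValuationRing B := UF.dvr_of_smooth ℂ P hP
  have hunit : ∀ y : P.primeCompl, IsUnit (algebraMap (chart w i) K y) := by
    intro y
    rw [isUnit_iff_ne_zero]
    intro h0
    have : (y : chart w i) = 0 := Subtype.ext h0
    exact y.2 (by rw [this]; exact P.zero_mem)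
  let f : B →+* K := IsLocalization.lift (M := P.primeCompl) hunit
  let _ : Algebra B K := f.toAlgebra
  have ht : IsScalarTower (chart w i) B K := IsScalarTower.of_algebraMap_eq fun x =>
    (IsLocalization.lift_eq (M := P.primeCompl) hunit x).symm
  have hfr : IsFractionRing B K :=
    IsFractionRing.isFractionRing_of_isDomain_of_isLocalization P.primeCompl B K
  have ht2 : IsScalarTower ℂ B K := IsScalarTower.of_algebraMap_eq fun x => by
    rw [IsScalarTower.algebraMap_apply ℂ (chart w i) B, ← IsScalarTower.algebraMap_apply]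
    rfl
  have hm0 : IsLocalRing.maximalIdeal B ≠ ⊥ := IsDiscreteValuationRing.not_a_field B
  obtain ⟨v, hv, -⟩ := Pool.Agent.H76.KN.v4 ℂ B K (IsLocalRing.maximalIdeal B) hm0
  have hBnn : ∀ b : B, 0 ≤ v.ord (algebraMap B K b) := by
    intro b
    by_cases hb : b = 0
    · rw [hb, map_zero, v.ord_zero]
    · exact_mod_cast (hv b 0 hb).2 (by simp)
  have hcoe : ∀ a : chart w i, algebraMap B K (algebraMap (chart w i) B a) = (a : K) := by
    intro a
    rw [← IsScalarTower.algebraMap_apply]
    rfl
  have hnn : NN v w i := by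
    intro a ha
    have h9 := hBnn (algebraMap (chart w i) B ⟨a, ha⟩)
    rw [hcoe] at h9
    exact h9
  refine ⟨v, hnn, ?_, ?_⟩
  · ext a
    rw [mem_centre]
    by_cases ha : a = 0
    · subst ha
      simp
    have haK : (a : K) ≠ 0 := fun h => ha (Subtype.ext h)
    have haB : algebraMap (chart w i) B a ≠ 0 := by
      intro h
      apply haK
      rw [← hcoe, h, map_zero]
    have h4 := hv _ 1 haB
    rw [hcoe, pow_one] at h4
    have h5 : algebraMap (chart w i) B a ∈ IsLocalRing.maximalIdeal B ↔ a ∈ P :=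
      IsLocalization.AtPrime.to_map_mem_maximal_iff B P a
    rw [← h5, ← h4]
    constructor
    · rintro (h | h)
      · exact absurd h haK
      · push_cast; omega
    · intro h
      right
      push_cast at h
      omega
  · intro x hx
    have hxB : ∃ b : B, algebraMap B K b = x := by
      have hval : ValuationRing B := inferInstance
      rcases (ValuationRing.iff_isInteger_or_isInteger B K).1 hval x with h | h
      · exact h
      · obtain ⟨b, hb⟩ := h
        by_cases hx0 : x = 0
        · exact ⟨0, by rw [map_zero, hx0]⟩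
        have hb0 : b ≠ 0 := by
          rintro rfl
          rw [map_zero] at hb
          exact inv_ne_zero hx0 hb.symm
        have hbu : IsUnit b := by
          by_contra hbu
          have h6 : b ∈ IsLocalRing.maximalIdeal B ^ 1 := by
            rw [pow_one]; exact hbu
          have h7 := (hv b 1 hb0).2 h6
          rw [hb, v.ord_inv] at h7
          push_cast at h7
          omega
        obtain ⟨u, rfl⟩ := hbu
        refine ⟨↑u⁻¹, ?_⟩
        have h8 : algebraMap B K (↑u⁻¹ : B) * algebraMap B K (u : B) = 1 := by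
          rw [← map_mul, Units.inv_mul, map_one]
        rw [hb] at h8
        field_simp at h8
        exact h8
    obtain ⟨b, rfl⟩ := hxB
    obtain ⟨a, s, rfl⟩ := IsLocalization.exists_mk'_eq P.primeCompl b
    refine ⟨a, s, s.2, ?_⟩
    have hs0 : ((s : chart w i) : K) ≠ 0 := by
      intro h0
      have : (s : chart w i) = 0 := Subtype.ext h0
      exact s.2 (by rw [this]; exact P.zero_mem)
    rw [eq_div_iff hs0, ← hcoe, ← map_mul, IsLocalization.mk'_spec, hcoe]

/-- on a chart where it is nonnegative, the valuation of a prime divisor has the localisation at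
the centre as its valuation ring -/
theorem exists_frac_of_isPrimeDivisor {v : DV ℂ K} (hv : IsPrimeDivisor w v) {i : Fin (N + 1)}
    (hi : w i ≠ 0) (h : NN v w i) (x : K) (hx : 0 ≤ v.ord x) :
    ∃ a b : chart w i, b ∉ centre h ∧ x = (a : K) / (b : K) := by
  obtain ⟨j, hj, hj1, hj2⟩ := hv
  obtain ⟨a, ha, b, hb, hb0, hbv, rfl⟩ := hj2 x hx
  obtain ⟨e1, h1⟩ := homog (i := j) (j := i) hj ha
  obtain ⟨e2, h2⟩ := homog (i := j) (j := i) hj hb
  have hr : v.ord (w j / w i) = 0 := ord_ratio hj hi hj1 h
  have hr0 : w j / w i ≠ 0 := div_ne_zero hj hi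
  have hre : (w j / w i) ^ (max e1 e2) ≠ 0 := pow_ne_zero _ hr0
  refine ⟨⟨_, h1 (max e1 e2) (le_max_left _ _)⟩, ⟨_, h2 (max e1 e2) (le_max_right _ _)⟩, ?_, ?_⟩
  · rw [notMem_centre]
    refine ⟨mul_ne_zero hb0 hre, ?_⟩
    change v.ord (b * (w j / w i) ^ (max e1 e2)) = 0
    rw [v.ord_mul' hb0 hre, v.ord_pow, hr, hbv]
    simp
  · change a / b = a * (w j / w i) ^ (max e1 e2) / (b * (w j / w i) ^ (max e1 e2))
    rw [mul_div_mul_right _ _ hre]

theorem height_centre (hX : IsSmoothProj w n) {v : DV ℂ K} (hv : IsPrimeDivisor w v)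
    {i : Fin (N + 1)} (hi : w i ≠ 0) (h : NN v w i) : (centre h).height = 1 := by
  have hnoeth := chart_noetherian hX hi
  apply le_antisymm
  · have hle : (centre h).height ≤ ((1 : ℕ) : ℕ∞) := by
      rw [Ideal.height_le_iff]
      intro Q hQ hlt
      have hQ0 : Q = ⊥ := by
        by_contra hne
        obtain ⟨q, hqQ, hq0⟩ := Submodule.exists_mem_ne_zero_of_ne_bot hne
        obtain ⟨a, haP, haQ⟩ := SetLike.exists_of_lt hlt
        have hqP : q ∈ centre h := hlt.le hqQ
        have hq0' : (q : K) ≠ 0 := fun h => hq0 (Subtype.ext h)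
        have ha0' : (a : K) ≠ 0 := by
          intro h0
          apply haQ
          have : a = 0 := Subtype.ext h0
          rw [this]; exact Q.zero_mem
        have hqv := ((mem_centre h q).1 hqP).resolve_left hq0'
        have hav := ((mem_centre h a).1 haP).resolve_left ha0'
        obtain ⟨m, hm⟩ := Int.eq_ofNat_of_zero_le hqv.le
        have hx : 0 ≤ v.ord ((a : K) ^ m / q) := by
          rw [v.ord_div (pow_ne_zero _ ha0') hq0', v.ord_pow, hm]
          have h6 : (m : ℤ) * 1 ≤ (m : ℤ) * v.ord (a : K) :=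
            mul_le_mul_of_nonneg_left (by omega) (by positivity)
          linarith
        obtain ⟨c, b, hb, hcb⟩ := exists_frac_of_isPrimeDivisor hv hi h _ hx
        have hb0 : (b : K) ≠ 0 := ((notMem_centre h b).1 hb).1
        have h5 : b * a ^ m = c * q := by
          apply Subtype.ext
          rw [div_eq_div_iff hq0' hb0] at hcb
          push_cast
          rw [mul_comm]; exact hcb
        have h6 : b * a ^ m ∈ Q := by rw [h5]; exact Q.mul_mem_left _ hqQ
        rcases hQ.mem_or_mem h6 with h7 | h7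
        · exact hb (hlt.le h7)
        · exact haQ (hQ.mem_of_pow_mem _ h7)
      rw [hQ0, Ideal.height_bot]
      norm_num
    exact_mod_cast hle
  · rw [Order.one_le_iff_ne_zero, ne_eq, Ideal.height_eq_zero_iff_eq_bot]
    exact centre_ne_bot hX hi h

theorem eq_of_centre_eq {v v' : DV ℂ K} (hv : IsPrimeDivisor w v) {i : Fin (N + 1)}
    (hi : w i ≠ 0) (h : NN v w i) (h' : NN v' w i) (hc : centre h' ≤ centre h) : v = v' := by
  apply DV.ext_of_vs_le
  intro x hx
  obtain ⟨a, b, hb, rfl⟩ := exists_frac_of_isPrimeDivisor hv hi h x hx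
  have hb' : b ∉ centre h' := fun h2 => hb (hc h2)
  rw [notMem_centre] at hb'
  rw [DV.mem_vs]
  by_cases ha : (a : K) = 0
  · rw [ha, zero_div, v'.ord_zero]
  rw [v'.ord_div ha hb'.1, hb'.2]
  have := h' a a.2
  omega

theorem isPrimeDivisor_of_height (hX : IsSmoothProj w n) {v : DV ℂ K} {i : Fin (N + 1)}
    (hi : w i ≠ 0) (h : NN v w i) (hc : (centre h).height = 1) : IsPrimeDivisor w v := by
  obtain ⟨v', h', hc', hfr⟩ := exists_dv hX hi (centre h) hc
  have hpd : IsPrimeDivisor w v' := by
    refine ⟨i, hi, h', fun x hx => ?_⟩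
    obtain ⟨a, b, hb, rfl⟩ := hfr x hx
    rw [← hc'] at hb
    have := (notMem_centre h' b).1 hb
    exact ⟨a, a.2, b, b.2, this.1, this.2, rfl⟩
  have : v' = v := eq_of_centre_eq hpd hi h' h hc'.ge
  rw [← this]
  exact hpd

/-- prime divisors are the discrete valuations with a centre of height one -/
theorem isPrimeDivisor_iff (hX : IsSmoothProj w n) {v : DV ℂ K} {i : Fin (N + 1)}
    (hi : w i ≠ 0) (h : NN v w i) : IsPrimeDivisor w v ↔ (centre h).height = 1 :=
  ⟨fun hv => height_centre hX hv hi h, isPrimeDivisor_of_height hX hi h⟩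

/-- every prime of height one is the centre of a prime divisor -/
theorem exists_pdiv (hX : IsSmoothProj w n) {i : Fin (N + 1)} (hi : w i ≠ 0)
    (P : Ideal (chart w i)) [P.IsPrime] (hP : P.height = 1) :
    ∃ v : PDiv w, ∃ h : NN v.1 w i, centre h = P := by
  obtain ⟨v, h, hc, -⟩ := exists_dv hX hi P hP
  exact ⟨⟨v, isPrimeDivisor_of_height hX hi h (by rw [hc]; exact hP)⟩, h, hc⟩

open Classical in
/-- the centre on a chart, or zero -/
noncomputable def cen (w : Fin (N + 1) → K) (i : Fin (N + 1)) (v : PDiv w) : Ideal (chart w i) :=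
  if h : NN v.1 w i then centre h else ⊥

theorem cen_eq {i : Fin (N + 1)} {v : PDiv w} (h : NN v.1 w i) : cen w i v = centre h := dif_pos h

theorem finite_ord_ne_chart (hX : IsSmoothProj w n) {f : K} (hf : f ≠ 0) {i : Fin (N + 1)}
    (hi : w i ≠ 0) : {v : PDiv w | NN v.1 w i ∧ v.1.ord f ≠ 0}.Finite := by
  have hnoeth := chart_noetherian hX hi
  obtain ⟨a, ha, b, hb, hb0, hfab⟩ := exists_div hX hi f
  have ha0 : a ≠ 0 := by
    rintro rfl
    exact hf (by rw [hfab]; simp)
  have hab : a * b ∈ chart w i := (chart w i).mul_mem ha hb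
  have hab0 : (⟨a * b, hab⟩ : chart w i) ≠ 0 := by
    intro h
    exact mul_ne_zero ha0 hb0 (congrArg Subtype.val h)
  have hfin := UF.finite_heightOne_mem hab0
  have hsub : cen w i '' {v : PDiv w | NN v.1 w i ∧ v.1.ord f ≠ 0} ⊆
      {p : Ideal (chart w i) | p.IsPrime ∧ p.height = 1 ∧ (⟨a * b, hab⟩ : chart w i) ∈ p} := by
    rintro _ ⟨v, ⟨hnn, hv⟩, rfl⟩
    rw [cen_eq hnn]
    refine ⟨centre_isPrime hnn, height_centre hX v.2 hi hnn, ?_⟩
    rw [mem_centre]
    right
    change 0 < v.1.ord (a * b)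
    rw [hfab, v.1.ord_div ha0 hb0] at hv
    rw [v.1.ord_mul' ha0 hb0]
    have h1 := hnn a ha
    have h2 := hnn b hb
    omega
  have hinj : Set.InjOn (cen w i) {v : PDiv w | NN v.1 w i ∧ v.1.ord f ≠ 0} := by
    rintro v ⟨hv, -⟩ v' ⟨hv', -⟩ hcc
    rw [cen_eq hv, cen_eq hv'] at hcc
    exact Subtype.ext (eq_of_centre_eq v.2 hi hv hv' hcc.ge)
  exact Set.Finite.of_finite_image (hfin.subset hsub) hinj

/-- a nonzero function has finitely many zeros and poles -/
theorem finite_ord_ne (hX : IsSmoothProj w n) {f : K} (hf : f ≠ 0) :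
    {v : PDiv w | v.1.ord f ≠ 0}.Finite := by
  have hun : {v : PDiv w | v.1.ord f ≠ 0} ⊆
      ⋃ i : {i : Fin (N + 1) // w i ≠ 0}, {v : PDiv w | NN v.1 w i.1 ∧ v.1.ord f ≠ 0} := by
    intro v hv
    obtain ⟨i, hi, hnn⟩ := exists_nn v.1 hX.nonzero
    exact Set.mem_iUnion.2 ⟨⟨i, hi⟩, hnn, hv⟩
  exact (Set.finite_iUnion fun i => finite_ord_ne_chart hX hf i.2).subset hun

/-- `Through` in terms of centres -/
theorem through_iff {v : PDiv w} {i : Fin (N + 1)} {p : Ideal (chart w i)} :
    Through v p ↔ ∃ h : NN v.1 w i, centre h ≤ p := by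
  constructor
  · rintro ⟨h1, h2⟩
    refine ⟨h1, fun a ha => ?_⟩
    rcases (mem_centre h1 a).1 ha with h3 | h3
    · have : a = 0 := Subtype.ext h3
      rw [this]; exact p.zero_mem
    · exact h2 a h3
  · rintro ⟨h1, h2⟩
    refine ⟨h1, fun a ha => h2 ?_⟩
    rw [mem_centre]
    exact Or.inr ha

end Pool.Agent.H12.BX
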