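import Pool.Agent.H12.BX.PDiv
import Pool.Agent.H12.UF.Extra2
import Pool.Agent.H15.SC.TargetsX

/-!
XC, XD, XE, XF of b5_modules (MP_f2954d_ag).
-/

namespace Pool.Agent.H12.BX

open SC

theorem xc : T_XC := by
  intro K _ _ N n w hX v i hi h x hx
  obtain ⟨a, b, hb, rfl⟩ := exists_frac_of_isPrimeDivisor v.2 hi h x hx
  have := (notMem_centre h b).1 hb
  exact ⟨a, a.2, b, b.2, this.1, this.2, rfl⟩

theorem xd : T_XD := by
  intro K _ _ N n w hX f
  by_cases hf : f = 0
  · subst hf
    have : {v : PDiv w | v.1.ord (0 : K) ≠ 0} = ∅ := by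
      ext v
      simp [v.1.ord_zero]
    rw [this]
    exact Set.finite_empty
  · exact finite_ord_ne hX hf

theorem xf : T_XF := by
  intro K _ _ N n w hX i p x hi hp hx0 hx
  have h1 := chart_finiteType hX hi
  have h2 := chart_formallySmooth hX hi
  have h3 := isFractionRing_chart hX hi
  obtain ⟨a, s, hs, has⟩ := UF.regular_of_heightOne ℂ p x (fun P hP hPh hPp => by
    obtain ⟨v, hv, hc⟩ := exists_pdiv hX hi P hPh
    have hthr : Through v p := through_iff.2 ⟨hv, by rw [hc]; exact hPp⟩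
    obtain ⟨a, b, hb, hab⟩ := exists_frac_of_isPrimeDivisor v.2 hi hv x (hx v hthr)
    have hb0 : (b : K) ≠ 0 := ((notMem_centre hv b).1 hb).1
    rw [hc] at hb
    refine ⟨a, b, hb, ?_⟩
    change x * (b : K) = (a : K)
    rw [hab, div_mul_cancel₀ _ hb0])
  refine ⟨a, s, hs, ?_⟩
  have hs0 : (s : K) ≠ 0 := by
    intro h
    apply hs
    have : s = 0 := Subtype.ext h
    rw [this]; exact p.zero_mem
  change x * (s : K) = (a : K) at has
  rw [eq_div_iff hs0]
  exact has

variable {K : Type} [Field K] [Algebra ℂ K] {N : ℕ} {w : Fin (N + 1) → K} {n : ℕ}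

/-- a local equation of one prime divisor -/
theorem exists_local_equation (hX : IsSmoothProj w n) {i : Fin (N + 1)} (hi : w i ≠ 0)
    (p : Ideal (chart w i)) [hp : p.IsMaximal] (v : PDiv w) (hv : Through v p) :
    ∃ π : K, π ≠ 0 ∧ v.1.ord π = 1 ∧ ∀ v' : PDiv w, Through v' p → v' ≠ v → v'.1.ord π = 0 := by
  have h1 := chart_finiteType hX hi
  have h2 := chart_formallySmooth hX hi
  obtain ⟨h, hc⟩ := through_iff.1 hv
  obtain ⟨π, hπ, hloc⟩ := UF.locally_principal ℂ p (centre h) hc (height_centre hX v.2 hi h)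
  -- an element of order one in the chart
  obtain ⟨a, b, hb, hab⟩ := exists_frac_of_isPrimeDivisor v.2 hi h v.1.unif
    (by rw [v.1.ord_unif]; norm_num)
  have hb' := (notMem_centre h b).1 hb
  have ha0 : (a : K) ≠ 0 := by
    intro h0
    apply v.1.unif_ne_zero
    rw [hab, h0, zero_div]
  have ha1 : v.1.ord (a : K) = 1 := by
    have := v.1.ord_unif
    rw [hab, v.1.ord_div ha0 hb'.1, hb'.2] at this
    omega
  have hac : a ∈ centre h := by
    rw [mem_centre]; right; omega
  obtain ⟨s, hs, c, hsc⟩ := hloc a hac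
  have hsK : (s : K) * a = c * π := by
    have := congrArg Subtype.val hsc
    exact this
  have hs0 : (s : K) ≠ 0 ∧ v.1.ord (s : K) = 0 := (notMem_centre h s).1 (fun h5 => hs (hc h5))
  have hprod : (c : K) * π ≠ 0 := by
    rw [← hsK]; exact mul_ne_zero hs0.1 ha0
  have hπ0 : (π : K) ≠ 0 := right_ne_zero_of_mul hprod
  have hc0 : (c : K) ≠ 0 := left_ne_zero_of_mul hprod
  have hπ1 := ((mem_centre h π).1 hπ).resolve_left hπ0
  refine ⟨π, hπ0, ?_, ?_⟩
  · have h6 := congrArg v.1.ord hsK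
    rw [v.1.ord_mul' hs0.1 ha0, v.1.ord_mul' hc0 hπ0, hs0.2, ha1] at h6
    have h7 := h c c.2
    omega
  · intro v' hv' hne
    obtain ⟨h', hc'⟩ := through_iff.1 hv'
    by_contra hord
    have hπ' : π ∈ centre h' := by
      rw [mem_centre]
      right
      have := h' π π.2
      omega
    have hle : centre h ≤ centre h' := by
      intro a' ha'
      obtain ⟨s', hs', c', hsc'⟩ := hloc a' ha'
      have h8 : s' * a' ∈ centre h' := by
        rw [hsc']; exact Ideal.mul_mem_left _ _ hπ'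
      rcases (centre_isPrime h').mem_or_mem h8 with h9 | h9
      · exact absurd (hc' h9) hs'
      · exact h9
    exact hne (Subtype.ext (eq_of_centre_eq v'.2 hi h' h hle))

theorem xe : T_XE := by
  classical
  intro K _ _ N n w hX D i p hi hp
  have hch : ∀ v : PDiv w, ∃ π : K, π ≠ 0 ∧ (Through v p → v.1.ord π = 1 ∧
      ∀ v' : PDiv w, Through v' p → v' ≠ v → v'.1.ord π = 0) := by
    intro v
    by_cases hv : Through v p
    · obtain ⟨π, h1, h2, h3⟩ := exists_local_equation hX hi p v hv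
      exact ⟨π, h1, fun _ => ⟨h2, h3⟩⟩
    · exact ⟨1, one_ne_zero, fun h => absurd h hv⟩
  choose π hπ0 hπ using hch
  set S : Finset (PDiv w) := D.support.filter fun v => Through v p with hS
  have hne : ∀ v ∈ S, π v ^ (- D v) ≠ 0 := fun v _ => zpow_ne_zero _ (hπ0 v)
  refine ⟨∏ v ∈ S, π v ^ (- D v), Finset.prod_ne_zero_iff.2 hne, fun u hu => ?_⟩
  rw [u.1.ord_prod S _ hne]
  have hterm : ∀ v ∈ S, u.1.ord (π v ^ (- D v)) = if v = u then - D u else 0 := by
    intro v hv
    have hvt : Through v p := (Finset.mem_filter.1 hv).2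
    rw [u.1.ord_zpow]
    by_cases h : v = u
    · subst h
      rw [if_pos rfl, (hπ v hvt).1, mul_one]
    · rw [if_neg h, (hπ v hvt).2 u hu (fun h' => h h'.symm), mul_zero]
  rw [Finset.sum_congr rfl hterm, Finset.sum_ite_eq' S u]
  by_cases hu' : u ∈ S
  · rw [if_pos hu']; ring
  · rw [if_neg hu']
    have : D u = 0 := by
      by_contra h0
      exact hu' (Finset.mem_filter.2 ⟨Finsupp.mem_support_iff.2 h0, hu⟩)
    rw [this]; rfl

end Pool.Agent.H12.BX
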